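import Pool.Agent.X5.LPS.Dig

/-!
# Equal sums of like powers of integers with small digit sums in a common base

Let `k ≥ (n + m - 1) ^ 2` and let `x₁ ^ k + ... + xₙ ^ k = y₁ ^ k + ... + yₘ ^ k` be an admissible
solution in positive integers whose digit sums in a common base `b > max(n, m) H ^ k` are at most
`H`. Then there is an admissible solution with at most `n` and `m` terms in positive integers `≤ H`,
and `H ≥ 1 + k / max(n, m)`. In particular there is no admissible solution in integers whose digit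
sums in a common base `b > max(n, m) H ^ k` are at most `H < 1 + k / max(n, m)`.
-/

set_option autoImplicit false

namespace Pool.Agent.Results.MP_b63b86_nt.SmallDigits

theorem result (k n m : ℕ) (hn : 0 < n) (hk : (n + m - 1) ^ 2 ≤ k) (H b : ℕ)
    (hb : max n m * H ^ k < b) (x : Fin n → ℕ) (y : Fin m → ℕ)
    (hx : ∀ i, 0 < x i ∧ (b.digits (x i)).sum ≤ H)
    (hy : ∀ j, 0 < y j ∧ (b.digits (y j)).sum ≤ H)
    (he : ∑ i, x i ^ k = ∑ j, y j ^ k) (hne : ∀ i j, x i ≠ y j) :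
    (∃ (I : Finset (Fin n)) (J : Finset (Fin m)) (a : Fin n → ℕ) (c : Fin m → ℕ),
      I.Nonempty ∧ J.Nonempty ∧ (∀ i ∈ I, 0 < a i ∧ a i ≤ H) ∧ (∀ j ∈ J, 0 < c j ∧ c j ≤ H) ∧
      ∑ i ∈ I, a i ^ k = ∑ j ∈ J, c j ^ k ∧ ∀ i ∈ I, ∀ j ∈ J, a i ≠ c j) ∧
    k ≤ max n m * (H - 1) :=
  Pool.Agent.X5.LPS.mainN hn hk
    ((Nat.mul_le_mul_right _ (le_max_left n m)).trans_lt hb)
    ((Nat.mul_le_mul_right _ (le_max_right n m)).trans_lt hb) x y hx hy he hne

end Pool.Agent.Results.MP_b63b86_nt.SmallDigits
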